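import Mathlib
import Pool.Agent.MP_f57c03_lc.H35.Main

namespace Pool.Agent.Results.MP_f57c03_lc.Regularity

open Pool.Agent.MP_f57c03_lc.H35

theorem result (K : Type*) [Field K] (ω : ℝ)
    (h : ∃ᶠ n : ℕ in Filter.atTop, (M K n : ℝ) < (n : ℝ) ^ ω) :
    ∀ᶠ n : ℕ in Filter.atTop, (M K n : ℝ) < (n : ℝ) ^ ω * Real.log n :=
  main K ω h

end Pool.Agent.Results.MP_f57c03_lc.Regularity
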